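import Pool.Agent.R789.FPTEnd

/-!
# MP_970e84_lc, Q1: FPT is not determined by the automorphism group

There are two Fraïssé structures with isomorphic topological automorphism groups, one with the
fixed points on type spaces property and one without it.
-/

namespace Pool.Agent.Results.MP_970e84_lc.FPTNotGroup

open Pool.Agent.R789.FPT

/-- **Q1 of MP_970e84_lc, answer yes.** -/
theorem result :
    ∃ (L : FirstOrder.Language.{0, 0}) (M : Type) (_ : L.Structure M)
      (L' : FirstOrder.Language.{0, 0}) (M' : Type) (_ : L'.Structure M'),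
      IsFraisseStructure L M ∧ IsFraisseStructure L' M' ∧ AutIso L M L' M' ∧
        HasFPT L M ∧ ¬ HasFPT L' M' :=
  ⟨L₁, ℤ, str₁, L₂, M₂, str₂, fraisse₁, fraisse₂, autIso, fpt₁, not_fpt₂⟩

end Pool.Agent.Results.MP_970e84_lc.FPTNotGroup
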